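import Mathlib
import Pool.Agent.H576.CT.Stm

/-!
# PROJECT CT (helper576), task TOUR: closed walk through a connected set and the cost of a tour
-/

set_option autoImplicit false

namespace Pool.Agent.H990.CTTour

open Finset Pool.Agent.TH112.BW Pool.Agent.H576.CT

/-- insertion of an excursion to a neighbour into a closed walk -/
lemma insert_walk {V : Type} [DecidableEq V] (H : SimpleGraph V) {a0 p q : V} (w : H.Walk a0 a0)
    (hp : p ∈ w.support) (h : H.Adj p q) :
    ∃ w' : H.Walk a0 a0, w'.length = w.length + 2 ∧ q ∈ w'.support ∧ ∀ x ∈ w.support, x ∈ w'.support := by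
  refine ⟨(w.takeUntil p hp).append
    ((SimpleGraph.Walk.cons h (SimpleGraph.Walk.cons h.symm SimpleGraph.Walk.nil)).append
      (w.dropUntil p hp)), ?_, ?_, ?_⟩
  · have e := congrArg SimpleGraph.Walk.length (w.take_spec hp)
    rw [SimpleGraph.Walk.length_append] at e
    rw [SimpleGraph.Walk.length_append, SimpleGraph.Walk.length_append,
      SimpleGraph.Walk.length_cons, SimpleGraph.Walk.length_cons, SimpleGraph.Walk.length_nil]
    omega
  · rw [SimpleGraph.Walk.mem_support_append_iff, SimpleGraph.Walk.mem_support_append_iff]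
    right
    left
    simp
  · intro x hx
    rw [← w.take_spec hp, SimpleGraph.Walk.mem_support_append_iff] at hx
    rw [SimpleGraph.Walk.mem_support_append_iff, SimpleGraph.Walk.mem_support_append_iff]
    rcases hx with hx | hx
    · exact Or.inl hx
    · exact Or.inr (Or.inr hx)

/-- a closed walk through a connected set -/
lemma closed_walk {V : Type} [DecidableEq V] (P : Finset V) (H : SimpleGraph V)
    (hHP : ∀ a a', H.Adj a a' → a ∈ P ∧ a' ∈ P) (hR : ∀ a ∈ P, ∀ a' ∈ P, H.Reachable a a')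
    (a0 : V) (ha0 : a0 ∈ P) :
    ∃ w : H.Walk a0 a0, w.length + 2 ≤ 2 * P.card ∧ ∀ a ∈ P, a ∈ w.support := by
  have key : ∀ n : ℕ, n + 1 ≤ P.card → ∃ Q : Finset V, Q ⊆ P ∧ a0 ∈ Q ∧ Q.card = n + 1 ∧
      ∃ w : H.Walk a0 a0, w.length = 2 * n ∧ ∀ a ∈ Q, a ∈ w.support := by
    intro n
    induction n with
    | zero =>
      intro _
      refine ⟨{a0}, by simpa using ha0, mem_singleton_self _, card_singleton _,
        SimpleGraph.Walk.nil, by simp, ?_⟩
      intro a ha
      rw [mem_singleton] at ha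
      rw [ha]
      simp
    | succ n ih =>
      intro hn
      obtain ⟨Q, hQP, ha0Q, hQc, w, hwl, hws⟩ := ih (by omega)
      obtain ⟨z, hzP, hzQ⟩ : ∃ z ∈ P, z ∉ Q := by
        by_contra hcon
        push Not at hcon
        have := card_le_card (show P ⊆ Q from hcon)
        omega
      obtain ⟨u⟩ := hR a0 ha0 z hzP
      obtain ⟨d, _, hd1, hd2⟩ := u.exists_boundary_dart (Q : Set V) (by simpa using ha0Q)
        (by simpa using hzQ)
      have hd1' : d.fst ∈ Q := by simpa using hd1
      have hd2' : d.snd ∉ Q := by simpa using hd2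
      obtain ⟨w', hw'l, hw'q, hw's⟩ := insert_walk H w (hws _ hd1') d.adj
      refine ⟨insert d.snd Q, ?_, mem_insert_of_mem ha0Q, ?_, w', ?_, ?_⟩
      · exact insert_subset (hHP _ _ d.adj).2 hQP
      · rw [card_insert_of_notMem hd2', hQc]
      · rw [hw'l, hwl]; ring
      · intro a ha
        rcases mem_insert.mp ha with h | h
        · rw [h]; exact hw'q
        · exact hw's a (hws a h)
  have hP1 : 1 ≤ P.card := card_pos.mpr ⟨a0, ha0⟩
  obtain ⟨Q, hQP, _, hQc, w, hwl, hws⟩ := key (P.card - 1) (by omega)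
  have hQ : Q = P := eq_of_subset_of_card_le hQP (by omega)
  refine ⟨w, by omega, ?_⟩
  rw [← hQ]
  exact hws

/-- the cost of covering the blocks along a walk -/
lemma walk_cost {V : Type} [Fintype V] [DecidableEq V] (G : SimpleGraph V) [DecidableRel G.Adj]
    (ε : ℝ) (hε0 : 0 ≤ ε) (hε1 : ε ≤ 1) (hN : ∀ x, (G.neighborFinset x).Nonempty)
    (P : Finset V) (B : V → Finset V) (H : SimpleGraph V) (c1 c2 : ℝ) (hc1 : 0 ≤ c1) (hc2 : 0 ≤ c2)
    (hcov : ∀ a ∈ P, ∀ (k : ℕ) (S : Finset V), a ∈ S → J G ε hN (Dt a (S ∪ B a)) k a S ≤ c1)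
    (hmov : ∀ a a', H.Adj a a' → ∀ (k : ℕ) (S : Finset V), a ∈ S → J G ε hN (Dt a' S) k a S ≤ c2)
    (hHP : ∀ a a', H.Adj a a' → a ∈ P ∧ a' ∈ P) (k : ℕ) :
    ∀ (a c : V) (p : H.Walk a c), a ∈ P → ∀ S : Finset V, a ∈ S →
      J G ε hN (Dt c (S ∪ p.support.toFinset.biUnion B)) k a S ≤
        ((p.length : ℝ) + 1) * c1 + p.length * c2 := by
  intro a c p
  induction p with
  | nil =>
    rename_i a
    intro haP S haS
    have e : (SimpleGraph.Walk.nil : H.Walk a a).support.toFinset.biUnion B = B a := by simp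
    rw [e, SimpleGraph.Walk.length_nil]
    have := hcov a haP k S haS
    push_cast
    linarith
  | cons h p ih =>
    rename_i a b c
    intro haP S haS
    have hbP : b ∈ P := (hHP a b h).2
    obtain ⟨Y, hY⟩ : ∃ Y, Y = S ∪ (SimpleGraph.Walk.cons h p).support.toFinset.biUnion B := ⟨_, rfl⟩
    have hYsub : Y ⊆ (S ∪ B a) ∪ p.support.toFinset.biUnion B := by
      rw [hY]
      intro x hx
      rw [mem_union] at hx
      rcases hx with hx | hx
      · exact mem_union_left _ (mem_union_left _ hx)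
      · rw [mem_biUnion] at hx
        obtain ⟨y, hy, hxy⟩ := hx
        rw [List.mem_toFinset, SimpleGraph.Walk.support_cons, List.mem_cons] at hy
        rcases hy with hy | hy
        · rw [hy] at hxy
          exact mem_union_left _ (mem_union_right _ hxy)
        · exact mem_union_right _ (mem_biUnion.mpr ⟨y, List.mem_toFinset.mpr hy, hxy⟩)
    rw [← hY, SimpleGraph.Walk.length_cons]
    have hlen : (0 : ℝ) ≤ p.length := Nat.cast_nonneg _
    have hm1 : 0 ≤ (p.length : ℝ) * c1 := mul_nonneg hlen hc1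
    have hm2 : 0 ≤ (p.length : ℝ) * c2 := mul_nonneg hlen hc2
    -- after the block of `a` is covered
    have st : ∀ S', a ∈ S' → S ∪ B a ⊆ S' →
        J G ε hN (Dt c Y) k a S' ≤ c2 + (((p.length : ℝ) + 1) * c1 + p.length * c2) := by
      intro S' haS' hS'
      have hcomp := J_comp hε0 hε1 hN (Dt c Y) (Dt b S') k
        (((p.length : ℝ) + 1) * c1 + p.length * c2) (by linarith)
        (by
          rintro x S'' ⟨hx, hS''⟩ hxS
          subst hx
          have h1 := ih hbP S'' hxS
          refine le_trans (J_anti hε0 hε1 hN _ _ ?_ k x S'') h1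
          rintro y T ⟨hy, hT⟩
          refine ⟨hy, ?_⟩
          refine hYsub.trans ?_
          refine (union_subset_union (hS'.trans hS'') (Subset.refl _)).trans hT) a S' haS'
      have := hmov a b h k S' haS'
      linarith
    have hcomp := J_comp hε0 hε1 hN (Dt c Y) (Dt a (S ∪ B a)) k
      (c2 + (((p.length : ℝ) + 1) * c1 + p.length * c2)) (by linarith)
      (by
        rintro x S' ⟨hx, hS'⟩ hxS
        subst hx
        exact st S' hxS hS') a S haS
    have := hcov a haP k S haS
    push_cast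
    linarith

end Pool.Agent.H990.CTTour

namespace Pool.Agent.H990

open Finset Pool.Agent.TH112.BW Pool.Agent.H576.CT Pool.Agent.H990.CTTour

theorem ct_tour : S_TOUR := by
  intro V _ _ G _ ε hε0 hε1 hN P B H c1 c2 hc1 hc2 hcov hmov hHP hR a0 ha0 k S haS
  obtain ⟨w, hwl, hws⟩ := closed_walk P H hHP hR a0 ha0
  have h1 := walk_cost G ε hε0 hε1 hN P B H c1 c2 hc1 hc2 hcov hmov hHP k a0 a0 w ha0 S haS
  have h2 : J G ε hN (fun _ S' => P.biUnion B ⊆ S') k a0 S ≤
      J G ε hN (Dt a0 (S ∪ w.support.toFinset.biUnion B)) k a0 S := by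
    refine J_anti hε0 hε1 hN _ _ ?_ k a0 S
    rintro x T ⟨_, hT⟩
    intro y hy
    apply hT
    rw [mem_biUnion] at hy
    obtain ⟨a, ha, hya⟩ := hy
    exact mem_union_right _ (mem_biUnion.mpr ⟨a, List.mem_toFinset.mpr (hws a ha), hya⟩)
  have hlen : (w.length : ℝ) + 2 ≤ 2 * P.card := by exact_mod_cast hwl
  have h3 : ((w.length : ℝ) + 1) * c1 ≤ 2 * P.card * c1 :=
    mul_le_mul_of_nonneg_right (by linarith) hc1
  have h4 : (w.length : ℝ) * c2 ≤ 2 * P.card * c2 :=
    mul_le_mul_of_nonneg_right (by linarith) hc2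
  calc J G ε hN (fun _ S' => P.biUnion B ⊆ S') k a0 S
      ≤ ((w.length : ℝ) + 1) * c1 + w.length * c2 := h2.trans h1
    _ ≤ 2 * P.card * c1 + 2 * P.card * c2 := add_le_add h3 h4
    _ = 2 * P.card * (c1 + c2) := by ring

end Pool.Agent.H990
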