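import Pool.Agent.H979.FR.Stm

set_option autoImplicit false
set_option linter.unusedSectionVars false

open MeasureTheory ProbabilityTheory Finset
open scoped ENNReal NNReal
open Pool.Agent.H979.FR Pool.Agent.TH994.LR

namespace Pool.Agent.H990

section CL

variable {V : Type} [Fintype V] [DecidableEq V]

/-- there is a set containing `L`, inside `R`, disjoint from `B` and closed in `R` -/
def Ev (B R L : Finset V) (d : V → V → Bool) : Prop :=
  ∃ U : Finset V, L ⊆ U ∧ U ⊆ R ∧ Disjoint U B ∧ ∀ a ∈ U, ∀ y ∈ R, y ∉ U → d a y = false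

/-- the new set after exploration of `x` -/
def nx (R L : Finset V) (x : V) (n : V → Bool) : Finset V :=
  (L ∪ R.filter (fun y => n y = true)).erase x

theorem Ev_step {B R L : Finset V} {x : V} (hx : x ∈ L) (hLR : L ⊆ R) (hxB : x ∉ B)
    (d : V → V → Bool) : Ev B R L d ↔ Ev B (R.erase x) (nx R L x (d x)) d := by
  constructor
  · rintro ⟨U, hLU, hUR, hUB, hcl⟩
    refine ⟨U.erase x, ?_, Finset.erase_subset_erase _ hUR, ?_, ?_⟩
    · intro y hy
      rw [nx, Finset.mem_erase, Finset.mem_union, Finset.mem_filter] at hy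
      rw [Finset.mem_erase]
      refine ⟨hy.1, ?_⟩
      rcases hy.2 with h | h
      · exact hLU h
      · by_contra hyU
        have := hcl x (hLU hx) y h.1 hyU
        rw [h.2] at this
        exact Bool.noConfusion this
    · exact Finset.disjoint_of_subset_left (Finset.erase_subset _ _) hUB
    · intro a ha y hy hyU
      rw [Finset.mem_erase] at ha hy
      have : y ∉ U := fun h => hyU (Finset.mem_erase.2 ⟨hy.1, h⟩)
      exact hcl a ha.2 y hy.2 this
  · rintro ⟨U, hLU, hUR, hUB, hcl⟩
    refine ⟨insert x U, ?_, ?_, ?_, ?_⟩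
    · intro y hy
      by_cases hyx : y = x
      · rw [hyx]; exact Finset.mem_insert_self _ _
      · refine Finset.mem_insert_of_mem (hLU ?_)
        rw [nx, Finset.mem_erase, Finset.mem_union]
        exact ⟨hyx, Or.inl hy⟩
    · intro y hy
      rcases Finset.mem_insert.1 hy with h | h
      · rw [h]; exact hLR hx
      · exact Finset.mem_of_mem_erase (hUR h)
    · rw [Finset.disjoint_insert_left]
      exact ⟨hxB, hUB⟩
    · intro a ha y hy hyU
      rw [Finset.mem_insert, not_or] at hyU
      rcases Finset.mem_insert.1 ha with h | h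
      · rw [h]
        by_contra hne
        have ht : d x y = true := by
          cases hd : d x y
          · exact absurd hd hne
          · rfl
        apply hyU.2
        apply hLU
        rw [nx, Finset.mem_erase, Finset.mem_union, Finset.mem_filter]
        exact ⟨hyU.1, Or.inr ⟨hy, ht⟩⟩
      · exact hcl a h y (Finset.mem_erase.2 ⟨hyU.1, hy⟩) hyU.2

open Classical in
/-- the largest closed set -/
noncomputable def star (B R : Finset V) (d : V → V → Bool) : Finset V :=
  univ.filter fun v => ∃ U : Finset V, v ∈ U ∧ U ⊆ R ∧ Disjoint U B ∧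
    ∀ a ∈ U, ∀ y ∈ R, y ∉ U → d a y = false

theorem mem_star {B R : Finset V} {d : V → V → Bool} {v : V} : v ∈ star B R d ↔
    ∃ U : Finset V, v ∈ U ∧ U ⊆ R ∧ Disjoint U B ∧ ∀ a ∈ U, ∀ y ∈ R, y ∉ U → d a y = false := by
  simp only [star, Finset.mem_filter, Finset.mem_univ, true_and]

theorem Ev_iff {B R L : Finset V} {d : V → V → Bool} : Ev B R L d ↔ L ⊆ star B R d := by
  constructor
  · rintro ⟨U, hLU, hUR, hUB, hcl⟩ v hv
    exact mem_star.2 ⟨U, hLU hv, hUR, hUB, hcl⟩
  · intro h
    refine ⟨star B R d, h, ?_, ?_, ?_⟩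
    · intro v hv
      obtain ⟨U, h1, h2, -, -⟩ := mem_star.1 hv
      exact h2 h1
    · rw [Finset.disjoint_left]
      intro v hv
      obtain ⟨U, h1, -, h3, -⟩ := mem_star.1 hv
      exact Finset.disjoint_left.1 h3 h1
    · intro a ha y hy hys
      obtain ⟨U, h1, h2, h3, h4⟩ := mem_star.1 ha
      refine h4 a h1 y hy fun hyU => hys ?_
      exact mem_star.2 ⟨U, hyU, h2, h3, h4⟩

theorem star_congr {B R : Finset V} {d d' : V → V → Bool}
    (h : ∀ a ∈ R, ∀ y ∈ R, d a y = d' a y) : star B R d = star B R d' := by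
  ext v
  rw [mem_star, mem_star]
  constructor
  · rintro ⟨U, h1, h2, h3, h4⟩
    exact ⟨U, h1, h2, h3, fun a ha y hy hyU => (h a (h2 ha) y hy) ▸ h4 a ha y hy hyU⟩
  · rintro ⟨U, h1, h2, h3, h4⟩
    exact ⟨U, h1, h2, h3, fun a ha y hy hyU => (h a (h2 ha) y hy).symm ▸ h4 a ha y hy hyU⟩

theorem Ev_congr {B R L : Finset V} {d d' : V → V → Bool}
    (h : ∀ a ∈ R, ∀ y ∈ R, d a y = d' a y) : Ev B R L d ↔ Ev B R L d' := by
  rw [Ev_iff, Ev_iff, star_congr h]

theorem nx_subset_iff {R L S : Finset V} {x : V} {n : V → Bool} :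
    nx R L x n ⊆ S ↔ L.erase x ⊆ S ∧ ∀ y ∈ R.erase x \ S, n y = false := by
  constructor
  · intro h
    constructor
    · intro y hy
      rw [Finset.mem_erase] at hy
      apply h
      rw [nx, Finset.mem_erase, Finset.mem_union]
      exact ⟨hy.1, Or.inl hy.2⟩
    · intro y hy
      rw [Finset.mem_sdiff, Finset.mem_erase] at hy
      by_contra hne
      have ht : n y = true := by
        cases hd : n y
        · exact absurd hd hne
        · rfl
      apply hy.2
      apply h
      rw [nx, Finset.mem_erase, Finset.mem_union, Finset.mem_filter]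
      exact ⟨hy.1.1, Or.inr ⟨hy.1.2, ht⟩⟩
  · rintro ⟨h1, h2⟩ y hy
    rw [nx, Finset.mem_erase, Finset.mem_union, Finset.mem_filter] at hy
    rcases hy.2 with h | h
    · exact h1 (Finset.mem_erase.2 ⟨hy.1, h⟩)
    · by_contra hyS
      have := h2 y (Finset.mem_sdiff.2 ⟨Finset.mem_erase.2 ⟨hy.1, h.1⟩, hyS⟩)
      rw [h.2] at this
      exact Bool.noConfusion this

open Classical in
/-- all pairs of `K` are closed with probability `∏ q`, also conditionally -/
theorem closed_prob {E : Type} [Fintype E] [DecidableEq E] (q : E → ℝ) (K : Finset E)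
    (H : (E → Bool) → ℝ) (hH : ∀ e ∈ K, ∀ c b, H (Function.update c e b) = H c) :
    ∑ c, pr q c * ((if ∀ e ∈ K, c e = false then (1 : ℝ) else 0) * H c) =
      (∏ e ∈ K, q e) * ∑ c, pr q c * H c := by
  induction K using Finset.induction_on with
  | empty => simp
  | insert e K he ih =>
    have ih' := ih (fun e' he' => hH e' (Finset.mem_insert_of_mem he'))
    rw [Finset.prod_insert he, mul_assoc, ← ih']
    have h1 := resample q e (fun b => if b then (0 : ℝ) else 1)
      (fun c => (if ∀ e ∈ K, c e = false then (1 : ℝ) else 0) * H c) (by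
        intro c b
        have h2 : (∀ e' ∈ K, Function.update c e b e' = false) ↔ ∀ e' ∈ K, c e' = false := by
          refine forall₂_congr fun e' he' => ?_
          have : e' ≠ e := fun h => he (h ▸ he')
          rw [Function.update_of_ne this]
        simp only [h2]
        rw [hH e (Finset.mem_insert_self _ _)])
    have h3 : q e * (if false = true then (0 : ℝ) else 1) + (1 - q e) * (if true = true then 0 else 1)
        = q e := by simp
    rw [h3] at h1
    rw [← h1]
    refine Finset.sum_congr rfl fun c _ => ?_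
    congr 1
    rw [← mul_assoc]
    congr 1
    by_cases h4 : c e = true
    · have h5 : ¬ ∀ e' ∈ insert e K, c e' = false := by
        intro h
        have := h e (Finset.mem_insert_self _ _)
        rw [h4] at this
        exact Bool.noConfusion this
      rw [if_neg h5, if_pos h4, zero_mul]
    · rw [if_neg h4, one_mul]
      have h6 : c e = false := by
        cases hd : c e
        · rfl
        · exact absurd hd h4
      have h7 : (∀ e' ∈ insert e K, c e' = false) ↔ ∀ e' ∈ K, c e' = false := by
        rw [Finset.forall_mem_insert]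
        exact ⟨fun h => h.2, fun h => ⟨h6, h⟩⟩
      simp only [h7]

/-- the symmetric configuration -/
def dir (c : Sym2 V → Bool) : V → V → Bool := fun a b => c s(a, b)

open Classical in
/-- the probability for the undirected model -/
noncomputable def gg (q : Sym2 V → ℝ) (B R L : Finset V) : ℝ :=
  ∑ c, pr q c * (if Ev B R L (dir c) then (1 : ℝ) else 0)

open Classical in
theorem key {w : Sym2 V → ℝ} (hw : ∀ e, 0 ≤ w e) {B R L : Finset V} {x : V} (hx : x ∈ L)
    (hLR : L ⊆ R) (hxB : x ∉ B) (μ : (V → Bool) → ℝ)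
    (h : ∀ S : Finset V, x ∉ S → ∑ n, μ n * (if ∀ y ∈ S, n y = false then (1 : ℝ) else 0) ≤
      Real.exp (-∑ y ∈ S, w s(x, y))) :
    ∑ n, μ n * gg (fun e => Real.exp (-1 * w e)) B (R.erase x) (nx R L x n) ≤
      gg (fun e => Real.exp (-1 * w e)) B R L := by
  set q : Sym2 V → ℝ := fun e => Real.exp (-1 * w e) with hqdef
  have hq : ∀ e, 0 ≤ q e ∧ q e ≤ 1 := by
    intro e
    refine ⟨(Real.exp_pos _).le, ?_⟩
    rw [hqdef]
    simp only
    rw [Real.exp_le_one_iff]
    have := hw e
    linarith
  have hpr := pr_nonneg hq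
  -- the sets
  set St : (Sym2 V → Bool) → Finset V := fun c => star B (R.erase x) (dir c) with hSt
  set T : (Sym2 V → Bool) → Finset V := fun c => R.erase x \ St c with hT
  have hxT : ∀ c, x ∉ T c := by
    intro c hc
    rw [hT] at hc
    exact (Finset.mem_erase.1 (Finset.mem_sdiff.1 hc).1).1 rfl
  -- invariance
  have hinv : ∀ y c b, St (Function.update c s(x, y) b) = St c := by
    intro y c b
    refine star_congr fun a ha z hz => ?_
    unfold dir
    rw [Function.update_of_ne]
    intro he
    have hax := (Finset.mem_erase.1 ha).1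
    have hzx := (Finset.mem_erase.1 hz).1
    rcases Sym2.eq_iff.1 he with ⟨h1, -⟩ | ⟨-, h1⟩
    · exact hax h1
    · exact hzx h1
  -- step 1
  have step1 : ∑ n, μ n * gg q B (R.erase x) (nx R L x n) =
      ∑ c, pr q c * ∑ n, μ n * (if Ev B (R.erase x) (nx R L x n) (dir c) then (1 : ℝ) else 0) := by
    unfold gg
    simp only [Finset.mul_sum]
    rw [Finset.sum_comm]
    refine Finset.sum_congr rfl fun c _ => Finset.sum_congr rfl fun n _ => ?_
    ring
  have ev : ∀ c n, (if Ev B (R.erase x) (nx R L x n) (dir c) then (1 : ℝ) else 0) =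
      (if L.erase x ⊆ St c then (1 : ℝ) else 0) * (if ∀ y ∈ T c, n y = false then (1 : ℝ) else 0) := by
    intro c n
    have h1 : Ev B (R.erase x) (nx R L x n) (dir c) ↔ (L.erase x ⊆ St c ∧ ∀ y ∈ T c, n y = false) := by
      rw [Ev_iff, nx_subset_iff]
    by_cases h2 : L.erase x ⊆ St c <;> by_cases h3 : ∀ y ∈ T c, n y = false
    · rw [if_pos (h1.2 ⟨h2, h3⟩), if_pos h2, if_pos h3, one_mul]
    · rw [if_neg (fun h => h3 (h1.1 h).2), if_neg h3, mul_zero]
    · rw [if_neg (fun h => h2 (h1.1 h).1), if_neg h2, zero_mul]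
    · rw [if_neg (fun h => h3 (h1.1 h).2), if_neg h3, mul_zero]
  have step2 : ∀ c, ∑ n, μ n * (if Ev B (R.erase x) (nx R L x n) (dir c) then (1 : ℝ) else 0) ≤
      (if L.erase x ⊆ St c then (1 : ℝ) else 0) * Real.exp (-∑ y ∈ T c, w s(x, y)) := by
    intro c
    have h1 : ∑ n, μ n * (if Ev B (R.erase x) (nx R L x n) (dir c) then (1 : ℝ) else 0) =
        (if L.erase x ⊆ St c then (1 : ℝ) else 0) *
          ∑ n, μ n * (if ∀ y ∈ T c, n y = false then (1 : ℝ) else 0) := by
      rw [Finset.mul_sum]
      refine Finset.sum_congr rfl fun n _ => ?_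
      rw [ev]; ring
    rw [h1]
    refine mul_le_mul_of_nonneg_left (h _ (hxT c)) ?_
    split_ifs <;> norm_num
  have step3 : ∀ c, (if Ev B R L (dir c) then (1 : ℝ) else 0) =
      (if L.erase x ⊆ St c then (1 : ℝ) else 0) *
        (if ∀ y ∈ T c, c s(x, y) = false then (1 : ℝ) else 0) := by
    intro c
    refine Eq.trans ?_ (ev c (dir c x))
    have := Ev_step hx hLR hxB (dir c)
    simp only [this]
  -- step 4
  have step4 : ∀ T0 : Finset V,
      ∑ c, pr q c * ((if ∀ y ∈ T0, c s(x, y) = false then (1 : ℝ) else 0) *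
        (if L.erase x ⊆ St c ∧ T c = T0 then (1 : ℝ) else 0)) =
      ∑ c, pr q c * (Real.exp (-∑ y ∈ T0, w s(x, y)) *
        (if L.erase x ⊆ St c ∧ T c = T0 then (1 : ℝ) else 0)) := by
    intro T0
    have h1 := closed_prob q (T0.image fun y => s(x, y))
      (fun c => if L.erase x ⊆ St c ∧ T c = T0 then (1 : ℝ) else 0) (by
        intro e he c b
        obtain ⟨y, -, rfl⟩ := Finset.mem_image.1 he
        have h2 := hinv y c b
        have h3 : T (Function.update c s(x, y) b) = T c := by
          rw [hT]; simp only [h2]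
        simp only [h2, h3])
    have h4 : ∏ e ∈ T0.image (fun y => s(x, y)), q e = Real.exp (-∑ y ∈ T0, w s(x, y)) := by
      rw [Finset.prod_image]
      · rw [hqdef]
        simp only
        rw [← Real.exp_sum]
        congr 1
        rw [← Finset.sum_neg_distrib]
        refine Finset.sum_congr rfl fun y _ => ?_
        ring
      · intro y _ y' _ he
        exact (Sym2.congr_right).1 he
    have h5 : ∀ c : Sym2 V → Bool, (∀ e ∈ T0.image (fun y => s(x, y)), c e = false) ↔
        ∀ y ∈ T0, c s(x, y) = false := by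
      intro c
      rw [Finset.forall_mem_image]
    simp only [h5] at h1
    rw [h1, h4, Finset.mul_sum]
    refine Finset.sum_congr rfl fun c _ => ?_
    ring
  have split : ∀ (F : Finset V → (Sym2 V → Bool) → ℝ) (c : Sym2 V → Bool),
      (if L.erase x ⊆ St c then (1 : ℝ) else 0) * F (T c) c =
      ∑ T0 : Finset V, F T0 c * (if L.erase x ⊆ St c ∧ T c = T0 then (1 : ℝ) else 0) := by
    intro F c
    by_cases h2 : L.erase x ⊆ St c
    · rw [if_pos h2, one_mul, Finset.sum_eq_single (T c)]
      · rw [if_pos ⟨h2, rfl⟩, mul_one]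
      · intro T0 _ hne
        rw [if_neg (fun h => hne h.2.symm), mul_zero]
      · intro h; exact absurd (Finset.mem_univ _) h
    · rw [if_neg h2, zero_mul]
      symm
      refine Finset.sum_eq_zero fun T0 _ => ?_
      rw [if_neg (fun h => h2 h.1), mul_zero]
  have fin : ∑ c, pr q c * ((if L.erase x ⊆ St c then (1 : ℝ) else 0) *
      Real.exp (-∑ y ∈ T c, w s(x, y))) =
      ∑ c, pr q c * ((if L.erase x ⊆ St c then (1 : ℝ) else 0) *
        (if ∀ y ∈ T c, c s(x, y) = false then (1 : ℝ) else 0)) := by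
    have h1 : ∀ c, (if L.erase x ⊆ St c then (1 : ℝ) else 0) *
        Real.exp (-∑ y ∈ T c, w s(x, y)) = _ := fun c =>
      split (fun T0 _ => Real.exp (-∑ y ∈ T0, w s(x, y))) c
    have h2 : ∀ c, (if L.erase x ⊆ St c then (1 : ℝ) else 0) *
        (if ∀ y ∈ T c, c s(x, y) = false then (1 : ℝ) else 0) = _ := fun c =>
      split (fun T0 c => if ∀ y ∈ T0, c s(x, y) = false then (1 : ℝ) else 0) c
    simp only [h1, h2, Finset.mul_sum]
    rw [Finset.sum_comm]
    conv_rhs => rw [Finset.sum_comm]
    refine Finset.sum_congr rfl fun T0 _ => ?_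
    exact (step4 T0).symm
  rw [step1]
  calc ∑ c, pr q c * ∑ n, μ n * (if Ev B (R.erase x) (nx R L x n) (dir c) then (1 : ℝ) else 0)
      ≤ ∑ c, pr q c * ((if L.erase x ⊆ St c then (1 : ℝ) else 0) *
          Real.exp (-∑ y ∈ T c, w s(x, y))) :=
        Finset.sum_le_sum fun c _ => mul_le_mul_of_nonneg_left (step2 c) (hpr c)
    _ = ∑ c, pr q c * ((if L.erase x ⊆ St c then (1 : ℝ) else 0) *
        (if ∀ y ∈ T c, c s(x, y) = false then (1 : ℝ) else 0)) := fin
    _ = gg q B R L := by
        unfold gg
        refine Finset.sum_congr rfl fun c _ => ?_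
        rw [step3]

theorem empty_case {Ω : Type} [MeasurableSpace Ω] (P : Measure Ω) [IsProbabilityMeasure P]
    (N : V → Ω → V → Bool) (w : Sym2 V → ℝ) (B R L : Finset V) (hL : L = ∅) :
      P {ω | Ev B R L (fun a => N a ω)} ≤
        ENNReal.ofReal (gg (fun e => Real.exp (-1 * w e)) B R L) := by
  have h1 : gg (fun e => Real.exp (-1 * w e)) B R L = 1 := by
    refine Eq.trans ?_ (sum_pr (fun e => Real.exp (-1 * w e)))
    unfold gg
    refine Finset.sum_congr rfl fun c _ => ?_
    rw [if_pos, mul_one]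
    rw [Ev_iff, hL]
    exact Finset.empty_subset _
  rw [h1, ENNReal.ofReal_one]
  exact prob_le_one

theorem main_ineq {Ω : Type} [MeasurableSpace Ω] (P : Measure Ω) [IsProbabilityMeasure P]
    (N : V → Ω → V → Bool) (hN : ∀ x, Measurable (N x)) (hI : iIndepFun N P) {w : Sym2 V → ℝ}
    (hw : ∀ e, 0 ≤ w e)
    (h : ∀ (x : V) (S : Finset V), x ∉ S → P {ω | ∀ y ∈ S, N x ω y = false} ≤
      ENNReal.ofReal (Real.exp (-∑ y ∈ S, w s(x, y)))) (B : Finset V) :
    ∀ (k : ℕ) (R L : Finset V), R.card = k → L ⊆ R →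
      P {ω | Ev B R L (fun a => N a ω)} ≤
        ENNReal.ofReal (gg (fun e => Real.exp (-1 * w e)) B R L) := by
  classical
  intro k
  induction k with
  | zero =>
    intro R L hR hL
    have hR0 : R = ∅ := Finset.card_eq_zero.1 hR
    have hL0 : L = ∅ := by rw [hR0] at hL; exact Finset.subset_empty.1 hL
    exact empty_case P N w B R L hL0
  | succ k ih =>
    intro R L hR hL
    by_cases hL0 : L = ∅
    · exact empty_case P N w B R L hL0
    obtain ⟨x, hx⟩ := Finset.nonempty_iff_ne_empty.2 hL0
    by_cases hxB : x ∈ B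
    · have h0 : {ω | Ev B R L (fun a => N a ω)} = ∅ := by
        rw [Set.eq_empty_iff_forall_notMem]
        rintro ω ⟨U, h1, -, h3, -⟩
        exact Finset.disjoint_left.1 h3 (h1 hx) hxB
      rw [h0, measure_empty]
      exact bot_le
    have hcard : (R.erase x).card = k := by
      rw [Finset.card_erase_of_mem (hL hx), hR]; rfl
    -- events
    set E : (V → Bool) → Set Ω := fun n => {ω | N x ω = n} with hE
    set F : (V → Bool) → Set Ω := fun n =>
      {ω | Ev B (R.erase x) (nx R L x n) (fun a => N a ω)} with hF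
    have hEm : ∀ n, MeasurableSet (E n) := fun n => hN x (measurableSet_singleton n)
    have hind := hI.indepFun_finset {x} (R.erase x) (by simp) hN
    have hprod : ∀ n, P (E n ∩ F n) = P (E n) * P (F n) := by
      intro n
      have h1 := hind.measure_inter_preimage_eq_mul
        {u : {a // a ∈ ({x} : Finset V)} → V → Bool | u ⟨x, Finset.mem_singleton_self x⟩ = n}
        {u : {a // a ∈ R.erase x} → V → Bool | Ev B (R.erase x) (nx R L x n)
          (fun a => if ha : a ∈ R.erase x then u ⟨a, ha⟩ else fun _ => false)}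
        (Set.toFinite _).measurableSet (Set.toFinite _).measurableSet
      have h2 : (fun a (i : {a // a ∈ R.erase x}) => N i a) ⁻¹'
          {u : {a // a ∈ R.erase x} → V → Bool | Ev B (R.erase x) (nx R L x n)
          (fun a => if ha : a ∈ R.erase x then u ⟨a, ha⟩ else fun _ => false)} = F n := by
        ext ω
        simp only [Set.mem_preimage, Set.mem_ofPred_eq, hF]
        refine Ev_congr fun a ha y _ => ?_
        rw [dif_pos ha]
      rw [h2] at h1
      exact h1
    have hsub : ∀ n, nx R L x n ⊆ R.erase x := by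
      intro n y hy
      rw [nx, Finset.mem_erase, Finset.mem_union, Finset.mem_filter] at hy
      rw [Finset.mem_erase]
      refine ⟨hy.1, ?_⟩
      rcases hy.2 with h | h
      · exact hL h
      · exact h.1
    have hg0 : ∀ R' L', 0 ≤ gg (fun e => Real.exp (-1 * w e)) B R' L' := by
      intro R' L'
      unfold gg
      refine Finset.sum_nonneg fun c _ => mul_nonneg (pr_nonneg ?_ c) ?_
      · intro e
        refine ⟨(Real.exp_pos _).le, ?_⟩
        rw [Real.exp_le_one_iff]
        have := hw e
        linarith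
      · split_ifs <;> norm_num
    have hmu : ∀ n, ENNReal.ofReal (P (E n)).toReal = P (E n) := fun n =>
      ENNReal.ofReal_toReal (measure_ne_top P _)
    have hkey := key hw hx hL hxB (fun n => (P (E n)).toReal) (by
      intro S hS
      have h1 := h x S hS
      rw [← ENNReal.ofReal_le_ofReal_iff (Real.exp_pos _).le]
      refine le_trans (le_of_eq ?_) h1
      rw [ENNReal.ofReal_sum_of_nonneg (fun n _ => mul_nonneg ENNReal.toReal_nonneg
        (by split_ifs <;> norm_num))]
      have h2 : {ω | ∀ y ∈ S, N x ω y = false} =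
          ⋃ n ∈ univ.filter (fun n : V → Bool => ∀ y ∈ S, n y = false), E n := by
        ext ω
        simp only [Set.mem_ofPred_eq, Set.mem_iUnion, Finset.mem_filter, Finset.mem_univ, true_and,
          hE, exists_prop]
        constructor
        · intro h; exact ⟨N x ω, h, rfl⟩
        · rintro ⟨n, h, rfl⟩; exact h
      rw [h2, measure_biUnion_finset]
      · rw [Finset.sum_filter]
        refine Finset.sum_congr rfl fun n _ => ?_
        by_cases h3 : ∀ y ∈ S, n y = false
        · rw [if_pos h3, if_pos h3, mul_one, hmu]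
        · rw [if_neg h3, if_neg h3, mul_zero, ENNReal.ofReal_zero]
      · intro n _ n' _ hne
        rw [Function.onFun, Set.disjoint_left]
        intro ω h4 h5
        exact hne (h4.symm.trans h5)
      · intro n _; exact hEm n)
    calc P {ω | Ev B R L (fun a => N a ω)}
        ≤ P (⋃ n, E n ∩ F n) := by
          refine measure_mono fun ω hω => ?_
          rw [Set.mem_iUnion]
          refine ⟨N x ω, rfl, ?_⟩
          exact (Ev_step hx hL hxB _).1 hω
      _ ≤ ∑ n, P (E n ∩ F n) := measure_iUnion_fintype_le P _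
      _ = ∑ n, P (E n) * P (F n) := Finset.sum_congr rfl fun n _ => hprod n
      _ ≤ ∑ n, ENNReal.ofReal (P (E n)).toReal *
          ENNReal.ofReal (gg (fun e => Real.exp (-1 * w e)) B (R.erase x) (nx R L x n)) := by
          refine Finset.sum_le_sum fun n _ => ?_
          rw [hmu]
          exact mul_le_mul_right (ih (R.erase x) (nx R L x n) hcard (hsub n)) _
      _ = ENNReal.ofReal (∑ n, (P (E n)).toReal *
          gg (fun e => Real.exp (-1 * w e)) B (R.erase x) (nx R L x n)) := by
          rw [ENNReal.ofReal_sum_of_nonneg (fun n _ => mul_nonneg ENNReal.toReal_nonneg (hg0 _ _))]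
          refine Finset.sum_congr rfl fun n _ => ?_
          rw [ENNReal.ofReal_mul ENNReal.toReal_nonneg]
      _ ≤ ENNReal.ofReal (gg (fun e => Real.exp (-1 * w e)) B R L) :=
          ENNReal.ofReal_le_ofReal hkey

end CL

theorem fr_cl : S_CL := by
  intro V _ _ Ω _ P _ N hN hI w hw h o B
  have h1 := main_ineq P N hN hI hw h B _ univ {o} rfl (Finset.subset_univ _)
  have h2 : ∀ d : V → V → Bool, Ev B univ {o} d ↔
      ∃ U : Finset V, o ∈ U ∧ Disjoint U B ∧ ∀ x ∈ U, ∀ y ∉ U, d x y = false := by
    intro d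
    constructor
    · rintro ⟨U, h1, -, h3, h4⟩
      exact ⟨U, Finset.singleton_subset_iff.1 h1, h3, fun x hx y hy => h4 x hx y (mem_univ y) hy⟩
    · rintro ⟨U, h1, h3, h4⟩
      exact ⟨U, Finset.singleton_subset_iff.2 h1, Finset.subset_univ _, h3,
        fun x hx y _ hy => h4 x hx y hy⟩
  have h3 : {ω | Ev B univ {o} (fun a => N a ω)} =
      {ω | ∃ U : Finset V, o ∈ U ∧ Disjoint U B ∧ ∀ x ∈ U, ∀ y ∉ U, N x ω y = false} := by
    ext ω
    exact h2 _
  rw [h3] at h1
  refine h1.trans (le_of_eq ?_)
  congr 1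
  unfold gg
  refine Finset.sum_congr rfl fun c _ => ?_
  have h4 := h2 (dir c)
  by_cases h5 : Ev B univ {o} (dir c)
  · rw [if_pos h5, if_pos]
    exact h4.1 h5
  · rw [if_neg h5, if_neg]
    exact fun h => h5 (h4.2 h)

end Pool.Agent.H990
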